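import Pool.Agent.PSL3.Fin3
import Pool.Agent.PSL3.Main

/-!
# MP_02be15_al: the groups PSL_3(q), q ≥ 3, q ≠ 4, all transitive actions

Let `F` be a finite field with at least three elements and not with four elements, `G` a group isomorphic to `PSL(3, F)` acting
transitively on a set with at least two points. Then every element of `G` is a product of two
elements of `G` without fixed points.
-/

set_option autoImplicit false

namespace Pool.Agent.Results.MP_02be15_al.PSLThree

/-- Every element of `PSL_3(q)`, `q ≥ 3`, `q ≠ 4`, is a product of two derangements, in every transitive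
action on a set with at least two points. -/
theorem result {F G Ω : Type*} [Field F] [Finite F] (h3 : 3 ≤ Nat.card F) (h4 : Nat.card F ≠ 4) [Group G]
    (e : G ≃* Matrix.ProjectiveSpecialLinearGroup (Fin 3) F)
    [MulAction G Ω] [MulAction.IsPretransitive G Ω] [Nontrivial Ω] (g : G) :
    ∃ x y : G, (∀ ω : Ω, x • ω ≠ ω) ∧ (∀ ω : Ω, y • ω ≠ ω) ∧ x * y = g :=
  Pool.Agent.PSL3.fin3 e (fun K hK g hg => Pool.Agent.PSL3.main h3 h4 K hK g hg) g

end Pool.Agent.Results.MP_02be15_al.PSLThree
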